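import Pool.Agent.H664.EX.Stm

set_option autoImplicit false

namespace Pool.Agent.H333.EX

open Filter Topology

theorem tie_core (S : Finset ℂ) (hS : 2 ≤ S.card) : ∃ ω : ℂ, ‖ω‖ = 1 ∧ ∃ s₁ ∈ S, ∃ s₂ ∈ S,
  s₁ ≠ s₂ ∧ ∀ ε : ℝ, 0 < ε → ∃ p₁ p₂ : ℂ, ‖p₁ - ω‖ < ε ∧ ‖p₂ - ω‖ < ε ∧
    (∀ s ∈ S, s ≠ s₁ → (s * p₁).re < (s₁ * p₁).re) ∧
    ∀ s ∈ S, s ≠ s₂ → (s * p₂).re < (s₂ * p₂).re := by
  classical
  set e : ℝ → ℂ := fun θ => Complex.exp (θ * Complex.I) with he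
  have hec : Continuous e := by rw [he]; fun_prop
  have hen : ∀ θ, ‖e θ‖ = 1 := fun θ => Complex.norm_exp_ofReal_mul_I θ
  have hre : ∀ (c : ℂ) (θ : ℝ), (c * e θ).re = ‖c‖ * Real.cos (Complex.arg c + θ) := by
    intro c θ
    have h1 : c * e θ = (‖c‖ : ℂ) * Complex.exp (((Complex.arg c + θ : ℝ) : ℂ) * Complex.I) := by
      have h0 : c = (‖c‖ : ℂ) * Complex.exp ((Complex.arg c : ℂ) * Complex.I) :=
        (Complex.norm_mul_exp_arg_mul_I c).symm
      have h2 : ((Complex.arg c + θ : ℝ) : ℂ) * Complex.I =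
          (Complex.arg c : ℂ) * Complex.I + (θ : ℂ) * Complex.I := by push_cast; ring
      rw [h2, Complex.exp_add, ← mul_assoc, ← h0]
    rw [h1, Complex.re_ofReal_mul, Complex.exp_ofReal_mul_I_re]
  let U : ℂ → Set ℝ := fun s => {θ | ∀ s' ∈ S, s' ≠ s → (s' * e θ).re < (s * e θ).re}
  let bad : Set ℝ := ⋃ a ∈ S, ⋃ b ∈ S, {θ | a ≠ b ∧ ((a - b) * e θ).re = 0}
  have hbad : bad.Countable := by
    refine Set.Countable.biUnion S.countable_toSet fun a _ => ?_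
    refine Set.Countable.biUnion S.countable_toSet fun b _ => ?_
    refine (Set.countable_range fun k : ℤ => (2 * (k : ℝ) + 1) * Real.pi / 2 -
      Complex.arg (a - b)).mono ?_
    rintro θ ⟨hab, h0⟩
    rw [hre] at h0
    rcases mul_eq_zero.1 h0 with h1 | h1
    · exact (sub_ne_zero.2 hab (norm_eq_zero.1 h1)).elim
    · obtain ⟨k, hk⟩ := Real.cos_eq_zero_iff.1 h1
      exact ⟨k, by simp only; linarith⟩
  have hdense : Dense badᶜ := hbad.dense_compl ℝ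
  have hne : S.Nonempty := Finset.card_pos.1 (by omega)
  have hsub : badᶜ ⊆ ⋃ s ∈ S, U s := by
    intro θ hθ
    obtain ⟨s, hs, hmax⟩ := Finset.exists_max_image S (fun s => (s * e θ).re) hne
    refine Set.mem_biUnion (Finset.mem_coe.2 hs) ?_
    intro s' hs' hss'
    refine lt_of_le_of_ne (hmax s' hs') fun heq => hθ ?_
    refine Set.mem_biUnion (Finset.mem_coe.2 hs') (Set.mem_biUnion (Finset.mem_coe.2 hs) ?_)
    refine ⟨hss', ?_⟩
    rw [sub_mul, Complex.sub_re, heq, sub_self]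
  have hcover : ∀ θ, ∃ s ∈ S, θ ∈ closure (U s) := by
    intro θ
    have h2 : θ ∈ closure (⋃ s ∈ S, U s) := closure_mono hsub (hdense θ)
    rw [Finset.closure_biUnion] at h2
    obtain ⟨s, hs, h3⟩ := Set.mem_iUnion₂.1 h2
    exact ⟨s, hs, h3⟩
  by_contra hcon
  have hdisj : ∀ a ∈ S, ∀ b ∈ S, a ≠ b → ∀ θ, θ ∈ closure (U a) → θ ∉ closure (U b) := by
    intro a ha b hb hab θ h1 h2
    refine hcon ⟨e θ, hen θ, a, ha, b, hb, hab, fun ε hε => ?_⟩
    have hn : e ⁻¹' (Metric.ball (e θ) ε) ∈ 𝓝 θ := hec.continuousAt (Metric.ball_mem_nhds _ hε)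
    obtain ⟨θ₁, hθ₁, hU₁⟩ := mem_closure_iff_nhds.1 h1 _ hn
    obtain ⟨θ₂, hθ₂, hU₂⟩ := mem_closure_iff_nhds.1 h2 _ hn
    refine ⟨e θ₁, e θ₂, ?_, ?_, hU₁, hU₂⟩
    · rw [← dist_eq_norm]; exact hθ₁
    · rw [← dist_eq_norm]; exact hθ₂
  obtain ⟨s₁, hs₁, h0⟩ := hcover 0
  have hclopen : IsClopen (closure (U s₁)) := by
    refine ⟨isClosed_closure, ?_⟩
    have hcompl : (closure (U s₁))ᶜ = ⋃ b ∈ S.erase s₁, closure (U b) := by
      ext θ
      rw [Set.mem_compl_iff, Set.mem_iUnion₂]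
      constructor
      · intro h
        obtain ⟨s, hs, h1⟩ := hcover θ
        refine ⟨s, Finset.mem_erase.2 ⟨?_, hs⟩, h1⟩
        rintro rfl
        exact h h1
      · rintro ⟨b, hb, h1⟩
        exact hdisj b (Finset.mem_of_mem_erase hb) s₁ hs₁ (Finset.ne_of_mem_erase hb) θ h1
    rw [← isClosed_compl_iff, hcompl]
    exact isClosed_biUnion_finset fun b _ => isClosed_closure
  have huniv : closure (U s₁) = Set.univ := by
    rcases isClopen_iff.1 hclopen with h | h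
    · rw [h] at h0; exact h0.elim
    · exact h
  have hmax : ∀ s' ∈ S, ∀ θ, (s' * e θ).re ≤ (s₁ * e θ).re := by
    intro s' hs' θ
    have hcl : IsClosed {θ | (s' * e θ).re ≤ (s₁ * e θ).re} := by
      apply isClosed_le <;> fun_prop
    have hsub' : U s₁ ⊆ {θ | (s' * e θ).re ≤ (s₁ * e θ).re} := by
      intro θ hθ
      by_cases h : s' = s₁
      · show (s' * e θ).re ≤ (s₁ * e θ).re
        rw [h]
      · exact (hθ s' hs' h).le
    have h1 : θ ∈ closure (U s₁) := by rw [huniv]; exact Set.mem_univ _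
    exact closure_minimal hsub' hcl h1
  obtain ⟨s', hs', hne'⟩ := Finset.exists_mem_ne (by omega : 1 < S.card) s₁
  have h1 := hmax s' hs' (-(Complex.arg (s' - s₁)))
  have h2 := hre (s' - s₁) (-(Complex.arg (s' - s₁)))
  rw [add_neg_cancel, Real.cos_zero, mul_one, sub_mul, Complex.sub_re] at h2
  have h3 : 0 < ‖s' - s₁‖ := norm_pos_iff.2 (sub_ne_zero.2 hne')
  linarith

/-- JOB TIE -/
theorem tie : Pool.Agent.H664.EX.S_tie := fun S hS => tie_core S hS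

end Pool.Agent.H333.EX
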